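import Pool.Agent.Helper14.LE.Stmts

/-!
# MP_08fe4e_an, planar disproof: modules T2 and T3

Integrability and continuity of the Green kernels.
-/

open MeasureTheory Set Filter Topology InnerProductSpace

noncomputable section

namespace LEP

namespace T2

/-- Cauchy-Schwarz. -/
theorem cs {μ : Measure ℂ} {u v : ℂ → ℝ} (hu : AEStronglyMeasurable u μ)
    (hv : AEStronglyMeasurable v μ) (hu2 : Integrable (fun z => u z ^ 2) μ)
    (hv2 : Integrable (fun z => v z ^ 2) μ) :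
    Integrable (fun z => u z * v z) μ ∧
      (∫ z, u z * v z ∂μ) ^ 2 ≤ (∫ z, u z ^ 2 ∂μ) * ∫ z, v z ^ 2 ∂μ := by
  have h1 : Integrable (fun z => u z * v z) μ := by
    refine Integrable.mono' (hu2.add hv2) (hu.mul hv) (ae_of_all _ fun z => ?_)
    rw [Real.norm_eq_abs, abs_le]
    simp only [Pi.add_apply]
    constructor <;> nlinarith [sq_nonneg (u z + v z), sq_nonneg (u z - v z), sq_nonneg (u z),
      sq_nonneg (v z)]
  refine ⟨h1, ?_⟩
  have h2 : ∀ t : ℝ, 0 ≤ (∫ z, u z ^ 2 ∂μ) * (t * t) + (2 * ∫ z, u z * v z ∂μ) * t +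
      ∫ z, v z ^ 2 ∂μ := by
    intro t
    have h3 : ∫ z, (u z * t + v z) ^ 2 ∂μ = (∫ z, u z ^ 2 ∂μ) * (t * t) +
        (2 * ∫ z, u z * v z ∂μ) * t + ∫ z, v z ^ 2 ∂μ := by
      have h4 : ∀ z, (u z * t + v z) ^ 2 = u z ^ 2 * (t * t) + (u z * v z) * (2 * t) + v z ^ 2 :=
        fun z => by ring
      simp only [h4]
      have i12 : Integrable (fun z => u z ^ 2 * (t * t) + (u z * v z) * (2 * t)) μ :=
        (hu2.mul_const _).add (h1.mul_const _)
      rw [integral_add i12 hv2, integral_add (hu2.mul_const _) (h1.mul_const _),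
        integral_mul_const, integral_mul_const]
      ring
    rw [← h3]
    exact integral_nonneg fun z => sq_nonneg _
  have h5 := discrim_le_zero h2
  unfold discrim at h5
  nlinarith

/-- `s ^ 2 ≤ min (s ^ 2) (M ^ 2) + s ^ 8 / M ^ 6`. -/
theorem sq_le {s M : ℝ} (hM : 0 < M) : s ^ 2 ≤ min (s ^ 2) (M ^ 2) + s ^ 8 / M ^ 6 := by
  have h0 : 0 ≤ s ^ 8 / M ^ 6 := div_nonneg (Even.pow_nonneg (by decide) _) (by positivity)
  rcases le_total (s ^ 2) (M ^ 2) with h | h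
  · rw [min_eq_left h]
    linarith
  · rw [min_eq_right h]
    have h1 : M ^ 6 ≤ s ^ 6 := by
      have := pow_le_pow_left₀ (sq_nonneg M) h 3
      nlinarith
    have h2 : s ^ 2 ≤ s ^ 8 / M ^ 6 := by
      rw [le_div_iff₀ (by positivity)]
      nlinarith [sq_nonneg s]
    nlinarith [sq_nonneg M]

theorem exists_M (C : ℝ) {ε : ℝ} (hε : 0 < ε) : ∃ M : ℝ, 0 < M ∧ |C| / M ^ 6 < ε := by
  have h : Tendsto (fun M : ℝ => |C| / M ^ 6) atTop (𝓝 0) :=
    Tendsto.div_atTop tendsto_const_nhds (tendsto_pow_atTop (by norm_num))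
  obtain ⟨M, hM, hM'⟩ := ((h.eventually (gt_mem_nhds hε)).and (eventually_gt_atTop 0)).exists
  exact ⟨M, hM', hM⟩

/-- Vitali, with a uniform `L⁸` bound. -/
theorem vitali {μ : Measure ℂ} [IsFiniteMeasure μ] {ι : Type*} {l : Filter ι}
    [l.IsCountablyGenerated] {F : ι → ℂ → ℝ} (hm : ∀ᶠ i in l, AEStronglyMeasurable (F i) μ)
    (C : ℝ) (h8 : ∀ᶠ i in l, Integrable (fun z => F i z ^ 8) μ ∧ ∫ z, F i z ^ 8 ∂μ ≤ C)
    (ht : ∀ᵐ z ∂μ, Tendsto (fun i => F i z) l (𝓝 0)) :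
    Tendsto (fun i => ∫ z, F i z ^ 2 ∂μ) l (𝓝 0) := by
  rw [Metric.tendsto_nhds]
  intro ε hε
  obtain ⟨M, hM, hMε⟩ := exists_M C (half_pos hε)
  have h1 : Tendsto (fun i => ∫ z, min (F i z ^ 2) (M ^ 2) ∂μ) l (𝓝 (∫ _z, (0 : ℝ) ∂μ)) := by
    refine tendsto_integral_filter_of_dominated_convergence (fun _ => M ^ 2) ?_ ?_
      (integrable_const _) ?_
    · filter_upwards [hm] with i hi
      exact (hi.pow 2).inf aestronglyMeasurable_const
    · refine Eventually.of_forall fun i => ae_of_all _ fun z => ?_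
      rw [Real.norm_eq_abs, abs_of_nonneg (le_min (sq_nonneg _) (sq_nonneg _))]
      exact min_le_right _ _
    · filter_upwards [ht] with z hz
      have h2 : Tendsto (fun i => min (F i z ^ 2) (M ^ 2)) l (𝓝 (min ((0 : ℝ) ^ 2) (M ^ 2))) :=
        (hz.pow 2).min tendsto_const_nhds
      rwa [zero_pow two_ne_zero, min_eq_left (sq_nonneg M)] at h2
  rw [integral_zero] at h1
  filter_upwards [h1.eventually (gt_mem_nhds (half_pos hε)), hm, h8] with i hi hmi h8i
  rw [Real.dist_eq, sub_zero, abs_of_nonneg (integral_nonneg fun z => sq_nonneg _)]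
  have h3 : Integrable (fun z => min (F i z ^ 2) (M ^ 2)) μ := by
    refine Integrable.mono' (integrable_const (M ^ 2)) ((hmi.pow 2).inf aestronglyMeasurable_const)
      (ae_of_all _ fun z => ?_)
    rw [Real.norm_eq_abs, abs_of_nonneg (le_min (sq_nonneg _) (sq_nonneg _))]
    exact min_le_right _ _
  have h4 : ∫ z, F i z ^ 2 ∂μ ≤ ∫ z, (min (F i z ^ 2) (M ^ 2) + F i z ^ 8 / M ^ 6) ∂μ :=
    integral_mono_of_nonneg (ae_of_all _ fun z => sq_nonneg _)
      (h3.add (h8i.1.div_const _)) (ae_of_all _ fun z => sq_le hM)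
  rw [integral_add h3 (h8i.1.div_const _), integral_div] at h4
  have h5 : (∫ z, F i z ^ 8 ∂μ) / M ^ 6 ≤ |C| / M ^ 6 := by
    refine div_le_div_of_nonneg_right ?_ (by positivity)
    exact h8i.2.trans (le_abs_self C)
  linarith

/-- The facts used. -/
structure Base (D : Set ℂ) (g : ℂ → ℂ → ℝ) (C : ℝ) : Prop where
  op : IsOpen D
  fin : volume D < ⊤
  gr : IsGreen D g
  meas : ∀ x, Measurable (g x)
  cont : ContinuousOn (fun q : ℂ × ℂ => g q.1 q.2) {q | q.1 ∈ D ∧ q.2 ∈ D ∧ q.1 ≠ q.2}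
  i8 : ∀ x ∈ D, IntegrableOn (fun z => g x z ^ 8) D ∧ ∫ z in D, g x z ^ 8 ≤ C

theorem base (hGQ1 : ST_GQ1) (hGQ2 : ST_GQ2) (hMEAS : ST_MEAS) (hGF2 : ST_GF2) (hGEO : ST_GEO)
    {R : ℝ → ℝ} (hR : Prof R) : ∃ C : ℝ, Base (Ddom R) (gD (Ddom R)) C := by
  obtain ⟨hUo, hDo, hUb, -, -, -, -⟩ := hGEO.1 R hR
  have hgr := hGF2 R hR
  have hDQ : Ddom R ⊆ Qd := inter_subset_right
  have hDb : Bornology.IsBounded (Ddom R) := hUb.subset inter_subset_left
  obtain ⟨ρ, hρ, hDρ⟩ := hDb.subset_ball_lt 0 0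
  obtain ⟨hm, hc⟩ := hMEAS (Ddom R) (gD (Ddom R)) hDo hgr
  obtain ⟨-, -, h8, -⟩ := hGQ2
  obtain ⟨C, hC, h8⟩ := h8 ρ hρ
  have hle := hGQ1.2.2.2.2 (Ddom R) (gD (Ddom R)) hDo hDQ hgr
  have hmx : ∀ x, Measurable (gD (Ddom R) x) := fun x => hm.comp measurable_prodMk_left
  refine ⟨C, hDo, hDb.measure_lt_top, hgr, hmx, hc, fun x hx => ?_⟩
  have hsub : Ddom R ⊆ Qd ∩ Metric.ball 0 ρ := fun z hz => ⟨hDQ hz, hDρ hz⟩
  obtain ⟨h1, h2⟩ := h8 x (hDQ hx) (by simpa using hDρ hx)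
  have h3 : IntegrableOn (fun z => GQ x z ^ 8) (Ddom R) := h1.mono_set hsub
  have h4 : ∀ z ∈ Ddom R, gD (Ddom R) x z ^ 8 ≤ GQ x z ^ 8 := fun z hz =>
    pow_le_pow_left₀ (hgr.nonneg x z) (hle x hx z hz) 8
  have h5 : IntegrableOn (fun z => gD (Ddom R) x z ^ 8) (Ddom R) := by
    refine Integrable.mono' h3 ((hmx x).pow_const 8).aestronglyMeasurable ?_
    filter_upwards [ae_restrict_mem hDo.measurableSet] with z hz
    rw [Real.norm_eq_abs, abs_of_nonneg (Even.pow_nonneg (by decide) _)]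
    exact h4 z hz
  refine ⟨h5, ?_⟩
  refine (setIntegral_mono_on h5 h3 hDo.measurableSet h4).trans (le_trans ?_ h2)
  exact setIntegral_mono_set h1 (ae_of_all _ fun z => Even.pow_nonneg (by decide) _)
    (LE.le.eventuallyLE hsub)

namespace Base

variable {D : Set ℂ} {g : ℂ → ℂ → ℝ} {C : ℝ} (h : Base D g C)
include h

theorem finite : IsFiniteMeasure (volume.restrict D) := ⟨by
  rw [Measure.restrict_apply_univ]
  exact h.fin⟩

theorem aem (x : ℂ) : AEStronglyMeasurable (g x) (volume.restrict D) :=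
  (h.meas x).aestronglyMeasurable

theorem i2 {x : ℂ} (hx : x ∈ D) : IntegrableOn (fun z => g x z ^ 2) D := by
  have := h.finite
  refine Integrable.mono' ((integrable_const (1 : ℝ)).add (h.i8 x hx).1) ((h.aem x).pow 2)
    (ae_of_all _ fun z => ?_)
  rw [Real.norm_eq_abs, abs_of_nonneg (sq_nonneg _)]
  have := sq_le (s := g x z) one_pos
  simp only [one_pow, div_one] at this
  simp only [Pi.add_apply]
  exact this.trans (add_le_add (min_le_right _ _) le_rfl)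

theorem i2_le {x : ℂ} (hx : x ∈ D) : ∫ z in D, g x z ^ 2 ≤ volume.real D + C := by
  have := h.finite
  have h1 : ∫ z in D, g x z ^ 2 ≤ ∫ z in D, ((1 : ℝ) + g x z ^ 8) := by
    refine integral_mono (h.i2 hx) ((integrable_const (1 : ℝ)).add (h.i8 x hx).1) fun z => ?_
    have := sq_le (s := g x z) one_pos
    simp only [one_pow, div_one] at this
    exact this.trans (add_le_add (min_le_right _ _) le_rfl)
  rw [integral_add (integrable_const _) (h.i8 x hx).1, integral_const] at h1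
  simp only [smul_eq_mul, mul_one, measureReal_restrict_apply_univ] at h1
  exact h1.trans (add_le_add le_rfl (h.i8 x hx).2)

theorem ptw {x z : ℂ} (hx : x ∈ D) (hz : z ∈ D) (hzx : z ≠ x) :
    Tendsto (fun x' => g x' z) (𝓝[D] x) (𝓝 (g x z)) := by
  have h1 := h.cont (x, z) ⟨hx, hz, hzx.symm⟩
  refine (Tendsto.comp h1 ?_ : Tendsto ((fun q : ℂ × ℂ => g q.1 q.2) ∘ fun x' => (x', z))
    (𝓝[D] x) _)
  refine tendsto_nhdsWithin_iff.mpr ⟨?_, ?_⟩
  · exact (Continuous.tendsto (by fun_prop : Continuous fun x' : ℂ => (x', z)) x).mono_left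
      nhdsWithin_le_nhds
  · have h2 : ∀ᶠ x' in 𝓝[D] x, x' ≠ z :=
      nhdsWithin_le_nhds (isOpen_ne.mem_nhds hzx.symm)
    filter_upwards [self_mem_nhdsWithin, h2] with x' hx' hne
    exact ⟨hx', hz, hne⟩

theorem diff8 {x y : ℂ} (hx : x ∈ D) (hy : y ∈ D) :
    IntegrableOn (fun z => (g x z - g y z) ^ 8) D ∧ ∫ z in D, (g x z - g y z) ^ 8 ≤ C + C := by
  have h1 : ∀ z, (g x z - g y z) ^ 8 ≤ g x z ^ 8 + g y z ^ 8 := by
    intro z
    have ha := h.gr.nonneg x z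
    have hb := h.gr.nonneg y z
    rcases le_total (g x z) (g y z) with hab | hab
    · have h2 : (g x z - g y z) ^ 8 = (g y z - g x z) ^ 8 := by ring
      rw [h2]
      have h3 : (g y z - g x z) ^ 8 ≤ g y z ^ 8 := pow_le_pow_left₀ (by linarith) (by linarith) 8
      have h4 : 0 ≤ g x z ^ 8 := pow_nonneg ha 8
      linarith
    · have h3 : (g x z - g y z) ^ 8 ≤ g x z ^ 8 := pow_le_pow_left₀ (by linarith) (by linarith) 8
      have h4 : 0 ≤ g y z ^ 8 := pow_nonneg hb 8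
      linarith
  have h2 : IntegrableOn (fun z => (g x z - g y z) ^ 8) D := by
    refine Integrable.mono' ((h.i8 x hx).1.add (h.i8 y hy).1) (((h.aem x).sub (h.aem y)).pow 8)
      (ae_of_all _ fun z => ?_)
    rw [Real.norm_eq_abs, abs_of_nonneg (Even.pow_nonneg (by decide) _)]
    exact h1 z
  refine ⟨h2, ?_⟩
  have h3 : ∫ z in D, (g x z - g y z) ^ 8 ≤ ∫ z in D, (g x z ^ 8 + g y z ^ 8) :=
    integral_mono h2 ((h.i8 x hx).1.add (h.i8 y hy).1) h1
  rw [integral_add (h.i8 x hx).1 (h.i8 y hy).1] at h3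
  exact h3.trans (add_le_add (h.i8 x hx).2 (h.i8 y hy).2)

theorem diff2 {x y : ℂ} (hx : x ∈ D) (hy : y ∈ D) :
    IntegrableOn (fun z => (g x z - g y z) ^ 2) D := by
  have := h.finite
  refine Integrable.mono' ((integrable_const (1 : ℝ)).add (h.diff8 hx hy).1)
    (((h.aem x).sub (h.aem y)).pow 2) (ae_of_all _ fun z => ?_)
  rw [Real.norm_eq_abs, abs_of_nonneg (sq_nonneg _)]
  have := sq_le (s := g x z - g y z) one_pos
  simp only [one_pow, div_one] at this
  simp only [Pi.add_apply]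
  exact this.trans (add_le_add (min_le_right _ _) le_rfl)

theorem l2cont {x : ℂ} (hx : x ∈ D) :
    Tendsto (fun x' => ∫ z in D, (g x' z - g x z) ^ 2) (𝓝[D] x) (𝓝 0) := by
  have := h.finite
  refine vitali (F := fun x' z => g x' z - g x z) ?_ (C + C) ?_ ?_
  · exact Eventually.of_forall fun x' => (h.aem x').sub (h.aem x)
  · filter_upwards [self_mem_nhdsWithin] with x' hx'
    exact h.diff8 hx' hx
  · have h1 : ∀ᵐ z ∂(volume.restrict D), z ≠ x := by
      refine ae_restrict_of_ae ?_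
      exact compl_mem_ae_iff.mpr (measure_singleton x)
    filter_upwards [h1, ae_restrict_mem h.op.measurableSet] with z hz hzD
    have h2 := (h.ptw hx hzD hz).sub_const (g x z)
    rwa [sub_self] at h2

theorem l2bdry {ε : ℝ} (hε : 0 < ε) : ∃ K ⊆ D, IsCompact K ∧
    ∀ x ∈ D \ K, ∫ z in D, g x z ^ 2 < ε := by
  have := h.finite
  obtain ⟨M, hM, hMε⟩ := exists_M C (show 0 < ε / 3 by positivity)
  obtain ⟨K₀, hK₀D, hK₀, hK₀v⟩ := h.op.measurableSet.exists_isCompact_sdiff_lt (μ := volume)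
    h.fin.ne (ε := ENNReal.ofReal (ε / 3 / M ^ 2)) (by
      simp only [ne_eq, ENNReal.ofReal_eq_zero, not_le]
      positivity)
  obtain ⟨δ, hδ, hδε⟩ : ∃ δ : ℝ, 0 < δ ∧ δ ^ 2 * volume.real D < ε / 3 := by
    have h1 : Tendsto (fun δ : ℝ => δ ^ 2 * volume.real D) (𝓝[>] 0) (𝓝 0) := by
      have : Tendsto (fun δ : ℝ => δ ^ 2 * volume.real D) (𝓝 0) (𝓝 ((0 : ℝ) ^ 2 * volume.real D)) :=
        Continuous.tendsto (by fun_prop) 0
      rw [zero_pow two_ne_zero, zero_mul] at this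
      exact this.mono_left nhdsWithin_le_nhds
    obtain ⟨δ, hδ, hδ'⟩ := ((h1.eventually (gt_mem_nhds (show 0 < ε / 3 by positivity))).and
      self_mem_nhdsWithin).exists
    exact ⟨δ, hδ', hδ⟩
  obtain ⟨K, hKD, hK, hKb⟩ := h.gr.bdry K₀ hK₀D hK₀ δ hδ
  refine ⟨K, hKD, hK, fun x hx => ?_⟩
  have hpt : ∀ᵐ z ∂(volume.restrict D), g x z ^ 2 ≤ δ ^ 2 + (D \ K₀).indicator (fun _ => M ^ 2) z +
      g x z ^ 8 / M ^ 6 := by
    filter_upwards [ae_restrict_mem h.op.measurableSet] with z hz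
    have h0 : 0 ≤ g x z ^ 8 / M ^ 6 := div_nonneg (Even.pow_nonneg (by decide) _) (by positivity)
    by_cases hzK : z ∈ K₀
    · have h1 : g x z ^ 2 ≤ δ ^ 2 :=
        pow_le_pow_left₀ (h.gr.nonneg x z) (hKb z hzK x hx).le 2
      have h2 : 0 ≤ (D \ K₀).indicator (fun _ => M ^ 2) z :=
        indicator_nonneg (fun _ _ => sq_nonneg M) z
      linarith
    · rw [indicator_of_mem (show z ∈ D \ K₀ from ⟨hz, hzK⟩)]
      have h1 := sq_le (s := g x z) hM
      have h2 : min (g x z ^ 2) (M ^ 2) ≤ M ^ 2 := min_le_right _ _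
      have h3 : 0 ≤ δ ^ 2 := sq_nonneg δ
      linarith
  have hms : MeasurableSet (D \ K₀) := h.op.measurableSet.diff hK₀.measurableSet
  have i1 : Integrable (fun _ : ℂ => δ ^ 2) (volume.restrict D) := integrable_const _
  have i2 : Integrable ((D \ K₀).indicator fun _ : ℂ => M ^ 2) (volume.restrict D) :=
    (integrable_const _).indicator hms
  have i3 : Integrable (fun z => g x z ^ 8 / M ^ 6) (volume.restrict D) :=
    (h.i8 x hx.1).1.div_const _
  have h1 : ∫ z in D, g x z ^ 2 ≤ ∫ z in D, (δ ^ 2 + (D \ K₀).indicator (fun _ => M ^ 2) z +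
      g x z ^ 8 / M ^ 6) := integral_mono_ae (h.i2 hx.1) ((i1.add i2).add i3) hpt
  have h2 : ∫ z in D, (δ ^ 2 + (D \ K₀).indicator (fun _ => M ^ 2) z + g x z ^ 8 / M ^ 6) =
      volume.real D * δ ^ 2 + volume.real (D \ K₀) * M ^ 2 + (∫ z in D, g x z ^ 8) / M ^ 6 := by
    have i12 : Integrable (fun z => δ ^ 2 + (D \ K₀).indicator (fun _ : ℂ => M ^ 2) z)
        (volume.restrict D) := i1.add i2
    rw [integral_add i12 i3, integral_add i1 i2, integral_indicator hms, integral_const,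
      integral_const, integral_div]
    simp only [smul_eq_mul, measureReal_restrict_apply_univ]
    rw [measureReal_restrict_apply hms, inter_eq_left.mpr sdiff_subset]
  have h3 : volume.real (D \ K₀) * M ^ 2 ≤ ε / 3 := by
    have e1 : volume.real (D \ K₀) ≤ ε / 3 / M ^ 2 := by
      rw [measureReal_def]
      exact ENNReal.toReal_le_of_le_ofReal (by positivity) hK₀v.le
    calc volume.real (D \ K₀) * M ^ 2 ≤ ε / 3 / M ^ 2 * M ^ 2 :=
          mul_le_mul_of_nonneg_right e1 (sq_nonneg M)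
      _ = ε / 3 := by field_simp
  have h4 : (∫ z in D, g x z ^ 8) / M ^ 6 ≤ |C| / M ^ 6 := by
    refine div_le_div_of_nonneg_right ?_ (by positivity)
    exact (h.i8 x hx.1).2.trans (le_abs_self C)
  rw [h2] at h1
  nlinarith

theorem prod {x y : ℂ} (hx : x ∈ D) (hy : y ∈ D) :
    IntegrableOn (fun z => g x z * g y z) D ∧
      (∫ z in D, g x z * g y z) ^ 2 ≤ (∫ z in D, g x z ^ 2) * ∫ z in D, g y z ^ 2 :=
  cs (h.aem x) (h.aem y) (h.i2 hx) (h.i2 hy)

theorem symm_int {x y : ℂ} (hy : y ∈ D) :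
    EqOn (fun z => g x z * g z y) (fun z => g x z * g y z) D := fun z hz => by
  show g x z * g z y = g x z * g y z
  rw [h.gr.symm z hz y hy]

theorem gam_eq {x y : ℂ} (hy : y ∈ D) :
    ∫ z in D, g x z * g z y = ∫ z in D, g x z * g y z :=
  setIntegral_congr_fun h.op.measurableSet (h.symm_int hy)

theorem cont_gam : ContinuousOn (fun q : ℂ × ℂ => ∫ z in D, g q.1 z * g q.2 z) (D ×ˢ D) := by
  rintro ⟨x, y⟩ ⟨hx, hy⟩
  simp only at hx hy
  have h1 := h.l2cont hx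
  have h2 := h.l2cont hy
  set B : ℝ := volume.real D + C with hB
  have hB0 : ∀ y' ∈ D, 0 ≤ ∫ z in D, g y' z ^ 2 := fun y' _ => integral_nonneg fun z => sq_nonneg _
  have key : ∀ q ∈ D ×ˢ D, |(∫ z in D, g q.1 z * g q.2 z) - ∫ z in D, g x z * g y z| ≤
      √((∫ z in D, (g q.1 z - g x z) ^ 2) * B) + √(B * ∫ z in D, (g q.2 z - g y z) ^ 2) := by
    rintro ⟨x', y'⟩ ⟨hx', hy'⟩
    simp only at hx' hy' ⊢
    obtain ⟨i1, e1⟩ := cs ((h.aem x').sub (h.aem x)) (h.aem y') (h.diff2 hx' hx) (h.i2 hy')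
    obtain ⟨i2, e2⟩ := cs (h.aem x) ((h.aem y').sub (h.aem y)) (h.i2 hx) (h.diff2 hy' hy)
    simp only [Pi.sub_apply] at i1 i2 e1 e2
    have e3 : (∫ z in D, g x' z * g y' z) - ∫ z in D, g x z * g y z =
        (∫ z in D, (g x' z - g x z) * g y' z) + ∫ z in D, g x z * (g y' z - g y z) := by
      rw [← integral_add i1 i2, ← integral_sub (h.prod hx' hy').1 (h.prod hx hy).1]
      refine integral_congr_ae (ae_of_all _ fun z => ?_)
      show _ = (g x' z - g x z) * g y' z + g x z * (g y' z - g y z)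
      ring
    rw [e3]
    refine (abs_add_le _ _).trans (add_le_add ?_ ?_)
    · refine Real.abs_le_sqrt (e1.trans ?_)
      exact mul_le_mul_of_nonneg_left (h.i2_le hy') (integral_nonneg fun z => sq_nonneg _)
    · refine Real.abs_le_sqrt (e2.trans ?_)
      exact mul_le_mul_of_nonneg_right (h.i2_le hx) (integral_nonneg fun z => sq_nonneg _)
  have hlim : Tendsto (fun q : ℂ × ℂ => √((∫ z in D, (g q.1 z - g x z) ^ 2) * B) +
      √(B * ∫ z in D, (g q.2 z - g y z) ^ 2)) (𝓝[D ×ˢ D] (x, y)) (𝓝 0) := by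
    rw [nhdsWithin_prod_eq]
    have t1 : Tendsto (fun q : ℂ × ℂ => ∫ z in D, (g q.1 z - g x z) ^ 2) (𝓝[D] x ×ˢ 𝓝[D] y)
        (𝓝 0) := h1.comp tendsto_fst
    have t2 : Tendsto (fun q : ℂ × ℂ => ∫ z in D, (g q.2 z - g y z) ^ 2) (𝓝[D] x ×ˢ 𝓝[D] y)
        (𝓝 0) := h2.comp tendsto_snd
    have t3 := ((t1.mul_const B).sqrt).add ((t2.const_mul B).sqrt)
    simpa using t3
  have h3 : Tendsto (fun q : ℂ × ℂ => (∫ z in D, g q.1 z * g q.2 z) - ∫ z in D, g x z * g y z)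
      (𝓝[D ×ˢ D] (x, y)) (𝓝 0) := by
    refine squeeze_zero_norm' ?_ hlim
    filter_upwards [self_mem_nhdsWithin] with q hq
    exact key q hq
  have h4 := h3.add_const (∫ z in D, g x z * g y z)
  simp only [sub_add_cancel, zero_add] at h4
  exact h4

end Base

end T2

open T2

theorem st_T2 (hGQ1 : ST_GQ1) (hGQ2 : ST_GQ2) (hMEAS : ST_MEAS) (hGF2 : ST_GF2)
    (hGEO : ST_GEO) : ST_T2 := by
  intro R hR
  obtain ⟨C, h⟩ := base hGQ1 hGQ2 hMEAS hGF2 hGEO hR
  have hG : ∀ x, ∀ y ∈ Ddom R, Gam (Ddom R) x y =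
      ∫ z in Ddom R, gD (Ddom R) x z * gD (Ddom R) y z := fun x y hy => h.gam_eq hy
  have hGG : ∀ x ∈ Ddom R, Gam (Ddom R) x x = ∫ z in Ddom R, (gD (Ddom R) x z) ^ 2 := by
    intro x hx
    rw [hG x x hx]
    simp only [sq]
  refine ⟨fun x hx => h.i2 hx, ⟨C, h.i8⟩, fun x hx y hy => ?_, fun x hx => h.l2cont hx,
    fun x hx y hy => ⟨?_, ?_, ?_⟩, hGG, ?_⟩
  · exact (integrableOn_congr_fun (h.symm_int hy) h.op.measurableSet).mpr (h.prod hx hy).1
  · exact integral_nonneg fun z => mul_nonneg (h.gr.nonneg _ _) (h.gr.nonneg _ _)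
  · rw [hG x y hy, hG y x hx]
    refine integral_congr_ae (ae_of_all _ fun z => mul_comm _ _)
  · rw [hGG x hx, hGG y hy, hG x y hy]
    exact (h.prod hx hy).2
  · refine h.cont_gam.congr fun q hq => ?_
    exact hG q.1 q.2 hq.2

theorem st_T3 (hGQ1 : ST_GQ1) (hGQ2 : ST_GQ2) (hMEAS : ST_MEAS) (hGF2 : ST_GF2)
    (hGEO : ST_GEO) : ST_T3 := by
  intro R hR f hf hf4
  obtain ⟨C, h⟩ := base hGQ1 hGQ2 hMEAS hGF2 hGEO hR
  have := h.finite
  have hf2 : IntegrableOn (fun y => f y ^ 2) (Ddom R) := by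
    refine Integrable.mono' ((integrable_const (1 : ℝ)).add hf4) (hf.pow 2)
      (ae_of_all _ fun z => ?_)
    rw [Real.norm_eq_abs, abs_of_nonneg (sq_nonneg _)]
    simp only [Pi.add_apply]
    nlinarith [sq_nonneg (f z ^ 2 - 1), sq_nonneg (f z)]
  set B : ℝ := ∫ y in Ddom R, f y ^ 2 with hB
  have hB0 : 0 ≤ B := integral_nonneg fun z => sq_nonneg _
  constructor
  · intro x hx
    have h1 := h.l2cont hx
    have key : ∀ x' ∈ Ddom R, |TD (Ddom R) f x' - TD (Ddom R) f x| ≤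
        √((∫ z in Ddom R, (gD (Ddom R) x' z - gD (Ddom R) x z) ^ 2) * B) := by
      intro x' hx'
      obtain ⟨-, e1⟩ := cs ((h.aem x').sub (h.aem x)) hf (h.diff2 hx' hx) hf2
      have e2 : TD (Ddom R) f x' - TD (Ddom R) f x =
          ∫ z in Ddom R, (gD (Ddom R) x' - gD (Ddom R) x) z * f z := by
        unfold TD
        rw [← integral_sub (cs (h.aem x') hf (h.i2 hx') hf2).1 (cs (h.aem x) hf (h.i2 hx) hf2).1]
        refine integral_congr_ae (ae_of_all _ fun z => ?_)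
        show _ = (gD (Ddom R) x' z - gD (Ddom R) x z) * f z
        ring
      rw [e2]
      exact Real.abs_le_sqrt e1
    have hlim : Tendsto (fun x' => √((∫ z in Ddom R, (gD (Ddom R) x' z -
        gD (Ddom R) x z) ^ 2) * B)) (𝓝[Ddom R] x) (𝓝 0) := by
      have t3 := (h1.mul_const B).sqrt
      simpa using t3
    have h3 : Tendsto (fun x' => TD (Ddom R) f x' - TD (Ddom R) f x) (𝓝[Ddom R] x) (𝓝 0) := by
      refine squeeze_zero_norm' ?_ hlim
      filter_upwards [self_mem_nhdsWithin] with q hq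
      exact key q hq
    have h4 := h3.add_const (TD (Ddom R) f x)
    simp only [sub_add_cancel, zero_add] at h4
    exact h4
  · intro ε hε
    obtain ⟨K, hKD, hK, hKb⟩ := h.l2bdry (show 0 < ε ^ 2 / (B + 1) by positivity)
    refine ⟨K, hKD, hK, fun x hx => ?_⟩
    obtain ⟨-, e1⟩ := cs (h.aem x) hf (h.i2 hx.1) hf2
    have h1 := hKb x hx
    have h2 : (TD (Ddom R) f x) ^ 2 < ε ^ 2 := by
      refine lt_of_le_of_lt (e1 : (TD (Ddom R) f x) ^ 2 ≤ _) ?_
      have h3 : 0 ≤ ∫ z in Ddom R, gD (Ddom R) x z ^ 2 := integral_nonneg fun z => sq_nonneg _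
      rw [lt_div_iff₀ (by positivity)] at h1
      nlinarith
    exact abs_lt_of_sq_lt_sq h2 hε.le

end LEP
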